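import Pool.Agent.Y63.NV.Bawc

/-!
# Minimal counterexamples to the blockwise Alperin weight conjecture and extensions by `p`-groups

Let `X` be a class of groups closed under isomorphisms, subgroups and quotients by normal
`p`-subgroups (for example the class of all groups, or of all groups which do not involve the groups
of a given list of simple groups of order divisible by `p`). We consider the finite groups `Γ` which
have a normal subgroup `G` in `X` such that `Γ/G` is a `p`-group, and prove that a counterexample of
smallest order among them to the blockwise Alperin weight conjecture for the prime `p` is in `X`, has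
no normal subgroup of index `p` and has no nontrivial normal `p`-subgroup.
-/

open scoped Classical

namespace Pool.Agent.Results.MP_78bba1_al.PExtensions

open Pool.Agent.Y63.NV

/-- a normal subgroup of `p`-power index of a group without normal subgroups of index `p` -/
theorem perfect {p : ℕ} [Fact p.Prime] {Γ : Type} [Group Γ] [Finite Γ]
    (hN : ∀ N : Subgroup Γ, N.Normal → N.index ≠ p) {G : Subgroup Γ} [hG : G.Normal]
    (hp : IsPGroup p (Γ ⧸ G)) : G = ⊤ := by
  by_contra hne
  obtain ⟨k, hk⟩ := IsPGroup.iff_card.1 hp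
  have hk0 : k ≠ 0 := by
    intro h0
    rw [h0, pow_zero] at hk
    exact hne (Subgroup.index_eq_one.1 hk)
  obtain ⟨N', hN'n, hN'i⟩ : ∃ N' : Subgroup (Γ ⧸ G), N'.Normal ∧ N'.index = p := by
    obtain ⟨N', hN'⟩ := Sylow.exists_subgroup_card_pow_prime (G := Γ ⧸ G) p (n := k - 1)
      (by rw [hk]; exact pow_dvd_pow p (Nat.sub_le k 1))
    have hpr : p.Prime := Fact.out
    have hi : N'.index = p := by
      have e1 := N'.card_mul_index
      rw [hN', hk] at e1
      have e2 : p ^ k = p ^ (k - 1) * p := by
        rw [← pow_succ]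
        congr 1
        omega
      rw [e2] at e1
      exact Nat.eq_of_mul_eq_mul_left (pow_pos hpr.pos _) e1
    refine ⟨N', Subgroup.normal_of_index_eq_minFac_card ?_, hi⟩
    rw [hi, hk, hpr.pow_minFac hk0]
  refine hN (N'.comap (QuotientGroup.mk' G)) (hN'n.comap _) ?_
  rw [Subgroup.index_comap_of_surjective _ (QuotientGroup.mk'_surjective G), hN'i]

theorem minimal {p : ℕ} [Fact p.Prime] {F : Type} [Field F] [IsAlgClosed F] [CharP F p]
    (red : integralClosure ℤ ℂ →+* F) (X : ∀ (H : Type) [Group H], Prop) (hX : Closed p X)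
    (h : ∀ (H : Type) [Group H] [Finite H], X H → Reduced p H →
      (∀ (L : Type) [Group L] [Finite L], XP p X L → Nat.card L < Nat.card H →
        Navarro p red (⊤ : Subgroup L)) → Navarro p red (⊤ : Subgroup H)) :
    ∀ (n : ℕ) (Γ : Type) [Group Γ] [Finite Γ], Nat.card Γ ≤ n → XP p X Γ →
      Navarro p red (⊤ : Subgroup Γ) := by
  intro n
  induction n with
  | zero =>
    intro Γ _ _ hn
    have := Nat.card_pos (α := Γ)
    omega
  | succ n ih =>
    intro Γ _ _ hn hΓ
    refine bawc_reduction red (fun H _ => XP p X H ∧ Finite H ∧ Nat.card H < Nat.card Γ + 1)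
      (closed_lt p (Nat.card Γ + 1) (fun H _ => XP p X H) (xp_closed p X hX)) ?_ (Nat.card Γ) Γ
      le_rfl ⟨⊤, inferInstance,
      ⟨(xp_closed p X hX).iso _ _ hΓ ⟨Subgroup.topEquiv.symm⟩, inferInstance, by
        rw [Subgroup.card_top]; exact Nat.lt_succ_self _⟩, pgroup_top p Γ⟩
    rintro H _ _ ⟨hH, _, hcard⟩ hR
    rcases Nat.lt_or_ge (Nat.card H) (Nat.card Γ) with hlt | hge
    · exact ih H (by omega) hH
    · refine h H ?_ hR fun L _ _ hL hlt => ih L (by omega) hL
      obtain ⟨G, hG, hXG, hp⟩ := hH
      have hG1 : G = ⊤ := perfect hR.perfect hp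
      subst hG1
      exact hX.iso _ _ hXG ⟨Subgroup.topEquiv⟩

/-- **Theorem.** The blockwise Alperin weight conjecture for all finite groups `Γ` with a normal
subgroup `G` in `X` such that `Γ/G` is a `p`-group is equivalent to the statement that it holds for
each finite group `H` in `X` without normal subgroups of index `p` and without nontrivial normal
`p`-subgroups, provided that it holds for all smaller groups with a normal subgroup in `X` of
`p`-power index. -/
theorem result (p : ℕ) [Fact p.Prime] (F : Type) [Field F] [IsAlgClosed F] [CharP F p]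
    (red : integralClosure ℤ ℂ →+* F) (X : ∀ (H : Type) [Group H], Prop) (hX : Closed p X) :
    (∀ (H : Type) [Group H] [Finite H], X H → Reduced p H →
      (∀ (L : Type) [Group L] [Finite L] (K : Subgroup L) [K.Normal], X K → IsPGroup p (L ⧸ K) →
        Nat.card L < Nat.card H → BAWC p red L) → BAWC p red H) ↔
    ∀ (Γ : Type) [Group Γ] [Finite Γ] (G : Subgroup Γ) [G.Normal], X G → IsPGroup p (Γ ⧸ G) →
      BAWC p red Γ := by
  constructor
  · intro h Γ _ _ G hG hXG hp
    rw [bawc_iff]
    refine minimal red X hX (fun H _ _ hH hR hs => ?_) (Nat.card Γ) Γ le_rfl ⟨G, hG, hXG, hp⟩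
    rw [← bawc_iff]
    refine h H hH hR fun L _ _ K hK hXK hpK hlt => ?_
    rw [bawc_iff]
    exact hs L ⟨K, hK, hXK, hpK⟩ hlt
  · intro h H _ _ hH _ _
    exact h H ⊤ (hX.iso _ _ hH ⟨Subgroup.topEquiv.symm⟩) (pgroup_top p H)

end Pool.Agent.Results.MP_78bba1_al.PExtensions
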